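import Pool.Agent.K1H90.TW.Rt
import Pool.Agent.Y760.SR.Fin

/-!
# Dirichlet series of the values with one large argument `a n + b` and fixed small inner arguments
-/

set_option autoImplicit false

namespace Pool.Agent.K1H90.SM

open Filter Topology Pool.Agent.Y760.ZG Pool.Agent.Y760.RT
open Pool.Agent.Y760.ZF.TW (TX)

/-- the coefficients at the powers -/
noncomputable def cc (f : ℕ → ℝ) (a b : ℕ) (u : List ℕ) (K : ℕ) : ℝ :=
  ∑ m ∈ Finset.Icc 1 K, if m ^ a = K then f m * (hr u m / (m : ℝ) ^ b) else 0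

lemma hr_rat (u : List ℕ) : ∀ m, ∃ q : ℚ, hr u m = (q : ℝ) := by
  induction u with
  | nil =>
    intro m
    exact ⟨1, by rw [hr_nil, Rat.cast_one]⟩
  | cons a u ih =>
    intro m
    choose q hq using ih
    refine ⟨∑ j ∈ Finset.Ico 1 m, q j / (j : ℚ) ^ a, ?_⟩
    rw [hr_cons]
    push_cast
    exact Finset.sum_congr rfl fun j _ => by rw [hq]

lemma cc_alg {f : ℕ → ℝ} (hf : ∀ m, IsAlgebraic ℚ (f m)) (a b : ℕ) (u : List ℕ) (K : ℕ) :
    IsAlgebraic ℚ (cc f a b u K) := by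
  unfold cc
  refine Finset.sum_induction _ (IsAlgebraic ℚ) (fun _ _ h h' => h.add h') isAlgebraic_zero
    fun m _ => ?_
  split_ifs
  · obtain ⟨q, hq⟩ := hr_rat u m
    refine (hf m).mul ?_
    have h1 : hr u m / (m : ℝ) ^ b = algebraMap ℚ ℝ (q / (m : ℚ) ^ b) := by
      rw [hq, eq_ratCast]
      push_cast
      rfl
    rw [h1]
    exact isAlgebraic_algebraMap _
  · exact isAlgebraic_zero

lemma tail_cc {f : ℕ → ℝ} {F : ℝ} (hF : 0 ≤ F) (hf : ∀ m, |f m| ≤ F) {a : ℕ} (ha : 1 ≤ a)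
    (b : ℕ) (u : List ℕ) : Tail (cc f a b u) (fun n => TX f (a * n + b) u) := by
  intro M
  have hex : ∃ k : ℕ, M < k ^ a :=
    ⟨M + 1, lt_of_lt_of_le (Nat.lt_succ_self M) (Nat.le_self_pow (by omega) _)⟩
  classical
  set k := Nat.find hex with hkdef
  have hk : M < k ^ a := Nat.find_spec hex
  have hk1 : 1 ≤ k := by
    rcases Nat.eq_zero_or_pos k with h | h
    · rw [h, zero_pow (by omega)] at hk
      omega
    · exact h
  have hlt : ∀ m, m < k → m ^ a ≤ M := fun m hm => not_lt.1 (Nat.find_min hex hm)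
  have hge : ∀ m, k ≤ m → M < m ^ a := fun m hm => hk.trans_le (Nat.pow_le_pow_left hm a)
  refine ⟨F * ze 2 * (k : ℝ) ^ (2 * u.length + 2), ?_⟩
  filter_upwards [eventually_ge_atTop (2 * u.length + 2)] with n hn
  have hσ : 2 * u.length + 2 ≤ a * n + b := by
    have h1 : 1 * n ≤ a * n := Nat.mul_le_mul_right n ha
    omega
  have hbd : ∀ m : ℕ, 1 ≤ m → |f m * (hr u m / (m : ℝ) ^ (a * n + b))| ≤
      F * (m : ℝ) ^ (2 * u.length) * ((m : ℝ) ^ (a * n + b))⁻¹ := by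
    intro m hm
    have hm1 : (1 : ℝ) ≤ m := by exact_mod_cast hm
    have h2 := hr_le u m hm
    rw [abs_mul, abs_of_nonneg (div_nonneg (hr_nonneg _ _) (by positivity)), mul_assoc,
      div_eq_mul_inv]
    refine mul_le_mul (hf m) (mul_le_mul_of_nonneg_right
      (h2.trans (pow_le_pow_right₀ hm1 (by omega))) (by positivity)) ?_ hF
    exact mul_nonneg (hr_nonneg _ _) (by positivity)
  have h1 := tail_split (f := fun m : ℕ => f m * (hr u m / (m : ℝ) ^ (a * n + b)))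
    (tail_sum hF hσ hbd le_rfl) hk1
  have h2 := tail_bd hF hσ hbd hk1
  have h3 : ∑ j ∈ Finset.Icc 1 M, cc f a b u j / (j : ℝ) ^ n =
      ∑ m ∈ Finset.Ico 1 k, f m * (hr u m / (m : ℝ) ^ (a * n + b)) := by
    have h4 : ∀ K ∈ Finset.Icc 1 M, cc f a b u K / (K : ℝ) ^ n =
        ∑ m ∈ Finset.Ico 1 k, if m ^ a = K then
          f m * (hr u m / (m : ℝ) ^ b) / (K : ℝ) ^ n else 0 := by
      intro K hK
      rw [Finset.mem_Icc] at hK
      unfold cc
      rw [← Finset.sum_filter, ← Finset.sum_filter, Finset.sum_div]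
      refine Finset.sum_congr ?_ fun _ _ => rfl
      ext m
      rw [Finset.mem_filter, Finset.mem_filter, Finset.mem_Icc, Finset.mem_Ico]
      constructor
      · rintro ⟨⟨h5, h6⟩, h7⟩
        refine ⟨⟨h5, ?_⟩, h7⟩
        by_contra h8
        have h9 := hge m (not_lt.1 h8)
        omega
      · rintro ⟨⟨h5, h6⟩, h7⟩
        refine ⟨⟨h5, ?_⟩, h7⟩
        rw [← h7]
        exact Nat.le_self_pow (by omega) m
    rw [Finset.sum_congr rfl h4, Finset.sum_comm]
    refine Finset.sum_congr rfl fun m hm => ?_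
    rw [Finset.mem_Ico] at hm
    rw [Finset.sum_ite_eq, if_pos (Finset.mem_Icc.2 ⟨Nat.one_le_pow _ _ hm.1, hlt m hm.2⟩)]
    push_cast
    have hm0 : (m : ℝ) ≠ 0 := by exact_mod_cast (by omega : m ≠ 0)
    rw [pow_add, pow_mul]
    field_simp
  have h4 : TX f (a * n + b) u - ∑ j ∈ Finset.Icc 1 M, cc f a b u j / (j : ℝ) ^ n =
      tl (fun m => f m * (hr u m / (m : ℝ) ^ (a * n + b))) k := by
    rw [h3, h1]
    unfold TX
    ring
  rw [h4]
  refine h2.trans ?_
  rw [div_eq_mul_inv]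
  have hz : 0 ≤ ze 2 := by
    unfold ze
    exact tsum_nonneg fun m => by positivity
  refine mul_le_mul_of_nonneg_left ?_ (by positivity)
  refine inv_anti₀ (by positivity) ?_
  have hk1' : (1 : ℝ) ≤ k := by exact_mod_cast hk1
  calc ((M : ℝ) + 1) ^ n ≤ ((k : ℝ) ^ a) ^ n :=
        pow_le_pow_left₀ (by positivity) (by exact_mod_cast hk) _
    _ = (k : ℝ) ^ (a * n) := by rw [pow_mul]
    _ ≤ (k : ℝ) ^ (a * n + b) := pow_le_pow_right₀ hk1' (Nat.le_add_right _ _)

lemma cc_pow (f : ℕ → ℝ) {a : ℕ} (ha : 1 ≤ a) (b : ℕ) (u : List ℕ) {p : ℕ} (hp : p.Prime) :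
    cc f a b u (p ^ a) = f p * (hr u p / (p : ℝ) ^ b) := by
  unfold cc
  rw [Finset.sum_eq_single p]
  · rw [if_pos rfl]
  · intro m _ hm
    rw [if_neg]
    intro h
    exact hm (Nat.pow_left_injective (by omega) h)
  · intro h
    exfalso
    apply h
    rw [Finset.mem_Icc]
    exact ⟨hp.one_lt.le, Nat.le_self_pow (by omega) p⟩

lemma cc_ppow (f : ℕ → ℝ) {a a' : ℕ} (ha : a' < a) (ha' : 1 ≤ a') (b : ℕ) (u : List ℕ) {p : ℕ}
    (hp : p.Prime) : cc f a b u (p ^ a') = 0 := by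
  unfold cc
  refine Finset.sum_eq_zero fun m hm => ?_
  rw [if_neg]
  intro h
  have h1 : m ∣ p ^ a' := by
    rw [← h]
    exact dvd_pow_self m (by omega)
  obtain ⟨j, _, rfl⟩ := (Nat.dvd_prime_pow hp).1 h1
  rw [← pow_mul] at h
  have h2 : j * a = a' := Nat.pow_right_injective hp.two_le h
  rcases Nat.eq_zero_or_pos j with h3 | h3
  · rw [h3, zero_mul] at h2
    omega
  · have h4 : 1 * a ≤ j * a := Nat.mul_le_mul_right a h3
    omega

lemma cc_one (f : ℕ → ℝ) {a : ℕ} (b : ℕ) (u : List ℕ) : cc f a b u 1 = f 1 * hr u 1 := by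
  unfold cc
  rw [Finset.Icc_self, Finset.sum_singleton, one_pow, if_pos rfl, Nat.cast_one, one_pow, div_one]

end Pool.Agent.K1H90.SM
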