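import Pool.Agent.K1H90.SM.Co
import Pool.Agent.Y760.ZF.Zk

/-!
# Sharp measures for the values with one large argument `a n + b` and fixed small inner arguments
-/

set_option autoImplicit false

namespace Pool.Agent.K1H90.SM

open Filter Topology Pool.Agent.Y760.ZG Pool.Agent.Y760.RT Pool.Agent.Y760.ST Pool.Agent.Y760.SR
open Pool.Agent.Y760.ZF.TW (TX alg_re liC li_re li_im)
open Pool.Agent.Y760.ZF (zek)

/-- the coefficients: `none` stands for the constant `1`, `some (a, b, v)` for the arguments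
`(a n + b, v)` -/
noncomputable def co (θ z : ℂ) : Option (ℕ+ × ℕ × List ℕ+) → ℕ → ℝ
  | none, K => if K = 1 then θ.re else 0
  | some x, K => cc (fun m => (θ * z ^ m).re) x.1 x.2.1 (cl x.2.2) K

/-- the values -/
noncomputable def vl (θ z : ℂ) : Option (ℕ+ × ℕ × List ℕ+) → ℕ → ℝ
  | none, _ => θ.re
  | some x, n => TX (fun m => (θ * z ^ m).re) (x.1 * n + x.2.1) (cl x.2.2)

lemma th_re {θ z : ℂ} (hz : ‖z‖ = 1) {u : List ℕ} {k : ℕ} (hk : 2 * u.length + 2 ≤ k) :
    (θ * liC z k u).re = TX (fun m => (θ * z ^ m).re) k u := by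
  unfold Pool.Agent.Y760.ZF.TW.liC Pool.Agent.Y760.ZF.TW.TX tl
  have h1 := (Pool.Agent.Y760.ZF.TW.summable_li hz u hk).mul_left θ
  rw [← tsum_mul_left, Complex.re_tsum h1]
  refine tsum_congr fun m => ?_
  rw [Pool.Agent.Y760.ZF.TW.li_term, ← mul_assoc, Complex.re_mul_ofReal]

/-- the value at primes of the first class -/
noncomputable def ld (z : ℂ) : Option (ℕ+ × ℕ × List ℕ+) → ℂ
  | none => 1
  | some _ => z

lemma co_alg {θ z : ℂ} (hθ : IsAlgebraic ℚ θ) (hz : IsAlgebraic ℚ z)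
    (x : Option (ℕ+ × ℕ × List ℕ+)) (K : ℕ) : IsAlgebraic ℚ (co θ z x K) := by
  rcases x with _ | x
  · rw [co]
    split_ifs
    · exact alg_re hθ
    · exact isAlgebraic_zero
  · rw [co]
    exact cc_alg (fun m => alg_re (hθ.mul (hz.pow m))) _ _ _ _

lemma tail_co {θ z : ℂ} (hz : ‖z‖ = 1) (x : Option (ℕ+ × ℕ × List ℕ+)) :
    Tail (co θ z x) (vl θ z x) := by
  rcases x with _ | x
  · intro M
    refine ⟨|θ.re|, Eventually.of_forall fun n => ?_⟩
    rcases Nat.eq_zero_or_pos M with rfl | hM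
    · simp [vl]
    · rw [Finset.sum_eq_single 1]
      · rw [co, if_pos rfl, vl, Nat.cast_one, one_pow, div_one, sub_self, abs_zero]
        positivity
      · intro j _ hj
        rw [co, if_neg hj, zero_div]
      · intro h
        exact absurd (Finset.mem_Icc.2 ⟨le_rfl, hM⟩) h
  · have h1 := tail_cc (f := fun m => (θ * z ^ m).re) (F := ‖θ‖) (norm_nonneg _) (fun m => by
      refine (Complex.abs_re_le_norm _).trans (le_of_eq ?_)
      rw [norm_mul, norm_pow, hz, one_pow, mul_one]) (a := x.1) (by exact x.1.pos) x.2.1 (cl x.2.2)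
    have h2 : co θ z (some x) = cc (fun m => (θ * z ^ m).re) x.1 x.2.1 (cl x.2.2) := by
      funext K
      rw [co]
    have h3 : vl θ z (some x) = fun n => TX (fun m => (θ * z ^ m).re) (x.1 * n + x.2.1)
        (cl x.2.2) := by
      funext n
      rw [vl]
    rw [h2, h3]
    exact h1

open Classical in
/-- **quantitative independence** -/
lemma nvi {ι : Type} [Fintype ι] (w : ι → Option (ℕ+ × ℕ × List ℕ+)) (z θ : ι → ℂ)
    (hz : ∀ i, z i ^ 6 = 1)
    (hind : ∀ β : ι → ℚ, (∀ x, ∑ i, (if w i = x then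
      (β i : ℝ) * (θ i * ld (z i) x).re else 0) = 0) → β = 0) :
    ∃ T : ℝ, 0 < T ∧ NVI (fun i => co (θ i) (z i) (w i)) T := by
  classical
  set Λ : Finset (List ℕ+) := Finset.univ.image fun i =>
    ((w i).map fun x => x.2.2).getD [] with hΛ
  set Bm : ℕ := ∑ i, ((w i).map fun x => x.2.1).getD 0 with hBm
  set Am : ℕ := ∑ i, ((w i).map fun x => (x.1 : ℕ)).getD 0 with hAm
  have hb : ∀ i x, w i = some x → x.2.1 < Bm + 1 := by
    intro i x hx
    have h1 : ((w i).map fun x => x.2.1).getD 0 ≤ Bm :=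
      Finset.single_le_sum (f := fun i => ((w i).map fun x => x.2.1).getD 0)
        (fun _ _ => Nat.zero_le _) (Finset.mem_univ i)
    rw [hx] at h1
    simp only [Option.map_some, Option.getD_some] at h1
    omega
  have ha : ∀ i x, w i = some x → (x.1 : ℕ) ≤ Am := by
    intro i x hx
    have h1 : ((w i).map fun x => (x.1 : ℕ)).getD 0 ≤ Am :=
      Finset.single_le_sum (f := fun i => ((w i).map fun x => (x.1 : ℕ)).getD 0)
        (fun _ _ => Nat.zero_le _) (Finset.mem_univ i)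
    rw [hx] at h1
    simpa only [Option.map_some, Option.getD_some] using h1
  have hv : ∀ i x, w i = some x → x.2.2 ∈ Λ := by
    intro i x hx
    rw [hΛ, Finset.mem_image]
    refine ⟨i, Finset.mem_univ _, ?_⟩
    rw [hx]
    rfl
  obtain ⟨R, hR⟩ := zek (Fin (Bm + 1)) Λ.card (Λ.sup List.length)
  obtain ⟨T, hT, hTs⟩ := primes6 Am (R + 1) ((Fintype.card ι : ℝ) ^ 2)
  refine ⟨T, hT, ?_⟩
  intro s hs h hh hlog β hβ
  have hs0 : 0 < s := lt_of_lt_of_le hT hs
  -- the patterns
  have hpat : ∀ i0, β i0 ≠ 0 → ∑ i, (if w i = w i0 then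
      (β i : ℝ) * (θ i * ld (z i) (w i0)).re else 0) ≠ 0 := by
    intro i0 hi0 h0
    have h1 := hind (fun i => if w i = w i0 then β i else 0) (by
      intro x
      by_cases hx : x = w i0
      · rw [hx]
        refine Eq.trans (Finset.sum_congr rfl fun i _ => ?_) h0
        by_cases h2 : w i = w i0
        · rw [if_pos h2, if_pos h2, if_pos h2]
        · rw [if_neg h2, if_neg h2]
      · refine Finset.sum_eq_zero fun i _ => ?_
        by_cases h2 : w i = x
        · rw [if_pos h2, if_neg (fun h3 => hx (h2.symm.trans h3)), Rat.cast_zero, zero_mul]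
        · rw [if_neg h2])
    have h2 := congrFun h1 i0
    rw [if_pos rfl] at h2
    exact hi0 h2
  obtain ⟨i2, hi2⟩ : ∃ i, β i ≠ 0 := by
    by_contra hcon
    push Not at hcon
    exact hβ (funext hcon)
  by_cases hall : ∀ i, β i ≠ 0 → w i = none
  · refine ⟨1, le_rfl, by rw [Nat.cast_one, Real.log_one]; exact hs0.le,
      Nat.coprime_one_right h, ?_⟩
    have h1 := hpat i2 hi2
    rw [hall i2 hi2] at h1
    intro h2
    apply h1
    refine Eq.trans (Finset.sum_congr rfl fun i _ => ?_) h2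
    by_cases h3 : β i = 0
    · rw [h3]
      simp
    · simp only
      rw [hall i h3, if_pos rfl, ld, mul_one, co, if_pos rfl]
  push Not at hall
  obtain ⟨i3, hi3, hi3'⟩ := hall
  obtain ⟨i1, hi1, hmin⟩ := Finset.exists_min_image
    (Finset.univ.filter fun i => β i ≠ 0 ∧ w i ≠ none)
    (fun i => ((w i).map fun x => (x.1 : ℕ)).getD 0)
    ⟨i3, Finset.mem_filter.2 ⟨Finset.mem_univ _, hi3, hi3'⟩⟩
  rw [Finset.mem_filter] at hi1
  obtain ⟨y, hy⟩ := Option.ne_none_iff_exists'.1 hi1.2.2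
  have hmin' : ∀ i x, w i = some x → β i ≠ 0 → (y.1 : ℕ) ≤ x.1 := by
    intro i x hx hi
    have h1 := hmin i (Finset.mem_filter.2 ⟨Finset.mem_univ _, hi, by rw [hx]; simp⟩)
    rw [hx, hy] at h1
    simpa only [Option.map_some, Option.getD_some] using h1
  set κ : Fin (Bm + 1) → List ℕ+ → ℝ := fun j v =>
    ∑ i, if w i = some (y.1, (j : ℕ), v) then (β i : ℝ) * (θ i * z i).re else 0 with hκ
  obtain ⟨P, hPc, hPq, Bd, hBd, hBd1, hBds⟩ := hTs s hs h hh hlog
  obtain ⟨p, hpP, hpne⟩ : ∃ p ∈ P, ∑ j : Fin (Bm + 1), ((p : ℝ) ^ (j : ℕ))⁻¹ *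
      ∑ v ∈ Λ, κ j v * hr (cl v) p ≠ 0 := by
    by_contra hcon
    push Not at hcon
    have h1 := hR (fun j => (j : ℕ)) Fin.val_injective Λ le_rfl
      (fun v hv => Finset.le_sup (f := List.length) hv) κ
      ⟨⟨y.2.1, hb i1 y hy⟩, y.2.2, hv i1 y hy, by
        have h2 := hpat i1 hi1.2.1
        rw [hκ]
        intro h3
        apply h2
        simp only at h3
        rw [hy]
        exact h3⟩ P (fun k hk => ⟨(hPq k hk).1.one_lt.le, hcon k hk⟩)
    rw [hPc] at h1
    omega
  obtain ⟨hpp, hp6, hph⟩ := hPq p hpP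
  have hzp : ∀ i, z i ^ p = z i := by
    intro i
    have h2 := pow_eq_pow_of_modEq hp6 (hz i)
    rwa [pow_one] at h2
  refine ⟨p ^ (y.1 : ℕ), Nat.one_le_pow _ _ hpp.pos, ?_, ?_, ?_⟩
  · push_cast
    rw [Real.log_pow]
    have h1 : Real.log p ≤ Real.log Bd :=
      Real.log_le_log (by exact_mod_cast hpp.pos) (by exact_mod_cast hBd p hpP)
    have h2 : ((y.1 : ℕ) : ℝ) ≤ Am := by exact_mod_cast ha i1 y hy
    have h3 : 0 ≤ Real.log Bd := Real.log_nonneg (by exact_mod_cast hBd1)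
    calc ((y.1 : ℕ) : ℝ) * Real.log p ≤ (y.1 : ℕ) * Real.log Bd :=
          mul_le_mul_of_nonneg_left h1 (Nat.cast_nonneg _)
      _ ≤ Am * Real.log Bd := mul_le_mul_of_nonneg_right h2 h3
      _ ≤ s := hBds
  · exact Nat.Coprime.pow_right _ (Nat.coprime_comm.1 ((Nat.Prime.coprime_iff_not_dvd hpp).2 hph))
  · intro h0
    apply hpne
    refine Eq.trans ?_ h0
    -- the sums
    have e1 : ∀ j : Fin (Bm + 1), ((p : ℝ) ^ (j : ℕ))⁻¹ * ∑ v ∈ Λ, κ j v * hr (cl v) p =
        ∑ i, ∑ v ∈ Λ, if w i = some (y.1, (j : ℕ), v) then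
          ((p : ℝ) ^ (j : ℕ))⁻¹ * ((β i : ℝ) * (θ i * z i).re * hr (cl v) p) else 0 := by
      intro j
      rw [Finset.sum_comm, Finset.mul_sum]
      refine Finset.sum_congr rfl fun v _ => ?_
      rw [hκ]
      simp only
      rw [Finset.sum_mul, Finset.mul_sum]
      refine Finset.sum_congr rfl fun i _ => ?_
      split_ifs
      · rfl
      · rw [zero_mul, mul_zero]
    rw [Finset.sum_congr rfl fun j _ => e1 j, Finset.sum_comm]
    refine Finset.sum_congr rfl fun i _ => ?_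
    show _ = (β i : ℝ) * co (θ i) (z i) (w i) (p ^ (y.1 : ℕ))
    rcases hwi : w i with _ | x
    · have h1 : co (θ i) (z i) none (p ^ (y.1 : ℕ)) = 0 := by
        rw [co, if_neg]
        have h2 : 1 < p ^ (y.1 : ℕ) := Nat.one_lt_pow y.1.ne_zero hpp.one_lt
        omega
      rw [h1, mul_zero]
      exact Finset.sum_eq_zero fun j _ => Finset.sum_eq_zero fun v _ => by simp
    · by_cases hxy : x.1 = y.1
      · rw [Finset.sum_eq_single (⟨x.2.1, hb i x hwi⟩ : Fin (Bm + 1)),
          Finset.sum_eq_single x.2.2]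
        · rw [if_pos (by rw [← hxy]), co, ← hxy, cc_pow _ (by exact x.1.pos) _ _ hpp, hzp, div_eq_mul_inv]
          ring
        · intro v _ hv'
          rw [if_neg]
          intro h1
          rw [Option.some.injEq] at h1
          exact hv' (congrArg (fun t : ℕ+ × ℕ × List ℕ+ => t.2.2) h1).symm
        · intro h1
          exact absurd (hv i x hwi) h1
        · intro j _ hj
          refine Finset.sum_eq_zero fun v _ => ?_
          rw [if_neg]
          intro h1
          rw [Option.some.injEq] at h1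
          apply hj
          apply Fin.ext
          exact (congrArg (fun t : ℕ+ × ℕ × List ℕ+ => t.2.1) h1).symm
        · intro h1
          exact absurd (Finset.mem_univ _) h1
      · rw [Finset.sum_eq_zero fun j _ => Finset.sum_eq_zero fun v _ => by
          rw [if_neg]
          intro h1
          rw [Option.some.injEq] at h1
          have h9 := congrArg Prod.fst h1
          exact hxy h9]
        by_cases hi : β i = 0
        · rw [hi, Rat.cast_zero, zero_mul]
        · have h1 := hmin' i x hwi hi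
          have h2 : (y.1 : ℕ) < x.1 := lt_of_le_of_ne h1 fun h3 => hxy (PNat.coe_injective h3.symm)
          rw [co, cc_ppow _ h2 (by exact y.1.pos) _ _ hpp, mul_zero]

open Classical in
/-- **sharp measures** -/
theorem main {ι : Type} [Fintype ι] (w : ι → Option (ℕ+ × ℕ × List ℕ+)) (z θ : ι → ℂ)
    (hz : ∀ i, z i ^ 6 = 1) (hθ : ∀ i, IsAlgebraic ℚ (θ i)) (i0 : ι)
    (h0 : w i0 = none ∨ ∃ a b, w i0 = some (a, b, []))
    (hind : ∀ β : ι → ℚ, (∀ x, ∑ i, (if w i = x then
      (β i : ℝ) * (θ i * ld (z i) x).re else 0) = 0) → β = 0) :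
    ∃ D : ℝ, 1 < D ∧ ∀ C B : ℝ, 1 < B → ∃ n0 : ℕ, ∀ n : ℕ, n0 ≤ n → ∀ H : ℝ, D ^ n ≤ H →
      H ≤ C ^ n → ∀ q : ι → ℤ, q ≠ 0 → (∀ i, |(q i : ℝ)| ≤ H) →
        1 / (H ^ (Fintype.card ι - 1) * B ^ n) < |∑ i, (q i : ℝ) * vl (θ i) (z i) (w i) n| := by
  classical
  obtain ⟨T, hT, hnv⟩ := nvi w z θ hz hind
  have hzn : ∀ i, ‖z i‖ = 1 := fun i => Complex.norm_eq_one_of_pow_eq_one (hz i) (by norm_num)
  have hza : ∀ i, IsAlgebraic ℚ (z i) := fun i =>
    IsAlgebraic.of_pow (n := 6) (by norm_num) (by rw [hz i]; exact isAlgebraic_one)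
  have hne : (θ i0 * ld (z i0) (w i0)).re ≠ 0 := by
    intro h1
    have h2 := hind (Pi.single i0 1) (by
      intro x
      refine Finset.sum_eq_zero fun i _ => ?_
      by_cases hi : i = i0
      · rw [hi]
        split_ifs with h3
        · rw [← h3, h1, mul_zero]
        · rfl
      · rw [Pi.single_eq_of_ne hi, Rat.cast_zero, zero_mul, ite_self])
    have h3 := congrFun h2 i0
    rw [Pi.single_eq_same, Pi.zero_apply] at h3
    exact one_ne_zero h3
  have hc : co (θ i0) (z i0) (w i0) 1 ≠ 0 := by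
    rcases h0 with h0 | ⟨a, b, h0⟩
    · rw [h0] at hne ⊢
      rw [ld, mul_one] at hne
      rw [co, if_pos rfl]
      exact hne
    · rw [h0] at hne ⊢
      rw [ld] at hne
      rw [co, cc_one, pow_one]
      have h1 : hr (cl ([] : List ℕ+)) 1 = 1 := by
        show hr [] 1 = 1
        rw [hr_nil]
      rw [h1, mul_one]
      exact hne
  refine ⟨Real.exp T, Real.one_lt_exp_iff.2 hT, fun C B hB => ?_⟩
  obtain ⟨n0, hn0⟩ := mainI i0 (fun i => co (θ i) (z i) (w i))
    (fun i K => co_alg (hθ i) (hza i) (w i) K) (fun i => vl (θ i) (z i) (w i))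
    (fun i => tail_co (hzn i) (w i)) hc T hT.le hnv C B hB
  refine ⟨n0, fun n hn H hH1 hH2 q hq hqH => hn0 n hn H ?_ hH2 q hq hqH⟩
  rw [mul_comm, Real.exp_nat_mul]
  exact hH1

end Pool.Agent.K1H90.SM
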