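import Mathlib
import Pool.Agent.K1H90.SM.Main

/-!
# MP_528be1_nt: sharp linear independence measures for the generators of `𝔠_w` with large first index

Multiple polylogarithms `Li_{a n + b, v_1, ..., v_r}(z, 1, ..., 1)` at sixth roots of unity `z` with
one large index and arbitrary fixed (small) inner indices `v_1, ..., v_r`: linear forms with integer
coefficients bounded by `H`, where `D ^ n ≤ H ≤ C ^ n`, are larger than `H ^ (-k) B ^ (-n)`, where
`k + 1` is the number of terms and `B > 1` is arbitrary. By Dirichlet's box principle the exponent `k`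
is the smallest possible one.

The proof uses the theorem of the starting library (`Pool.Agent.Y760.ST.mainI`, subspace theorem
through germs), which needs that the Dirichlet coefficients of the numbers are independent in a
quantitative sense. This is shown with primes `1` modulo `6` that do not divide a given number
(`Pool.Agent.Y760.SR`) and the uniform zero estimate for sums of truncated multiple harmonic sums
(`Pool.Agent.Y760.ZF.zek`). New helper files: `Pool.Agent.K1H90.SM`.
-/

set_option autoImplicit false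

namespace Pool.Agent.K1H90.SM.Gen

/-- `harm [v_1, ..., v_r] m` is the sum of `∏ 1 / l_j ^ v_j` over `m > l_1 > ... > l_r ≥ 1` -/
noncomputable def harm : List ℕ → ℕ → ℝ
  | [], _ => 1
  | a :: u, m => ∑ j ∈ Finset.Ico 1 m, harm u j / (j : ℝ) ^ a

/-- `value z n none = 1`, and `value z n (some (a, b, [v_1, ..., v_r]))` is the multiple
polylogarithm `Li_{a n + b, v_1, ..., v_r}(z, 1, ..., 1)`, the sum of
`z ^ l_0 / (l_0 ^ (a n + b) l_1 ^ v_1 ⋯ l_r ^ v_r)` over `l_0 > l_1 > ... > l_r ≥ 1`; for
`z = exp (π i / 3)` it is the multiple Clausen value `μ_{a n + b, v_1, ..., v_r}` -/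
noncomputable def value (z : ℂ) (n : ℕ) : Option (ℕ+ × ℕ × List ℕ+) → ℂ
  | none => 1
  | some (a, b, v) => ∑' m : ℕ, z ^ (m + 1) / ((m + 1 : ℕ) : ℂ) ^ ((a : ℕ) * n + b) *
      ((harm (v.map fun x : ℕ+ => (x : ℕ)) (m + 1) : ℝ) : ℂ)

/-- `lead z none = 1` and `lead z x = z` for all other `x` -/
noncomputable def lead (z : ℂ) : Option (ℕ+ × ℕ × List ℕ+) → ℂ
  | none => 1
  | some _ => z

/-- Let `w_0, ..., w_k` be `none` (the number `1`) or patterns `(a, b, v)` with `a ≥ 1`, `b ≥ 0` and a
list `v` of positive integers, `z_i ^ 6 = 1` and `θ_0, ..., θ_k` complex algebraic numbers, such that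
for every pattern `x` the real numbers `Re(θ_i lead z_i x)`, taken over the `i` with `w_i = x`, are
linearly independent over `ℚ`. Let `w_0` be `none` or a pattern with empty `v`. There is `D > 1` such
that for all `C` and all `B > 1`, for all large `n` and all `H` with `D ^ n ≤ H ≤ C ^ n`, all integers
`q_i`, not all zero, with `|q_i| ≤ H` satisfy `|∑ q_i Re(θ_i value z_i n w_i)| > H ^ (-k) B ^ (-n)`. -/
theorem result (k : ℕ) (w : Fin (k + 1) → Option (ℕ+ × ℕ × List ℕ+)) (z θ : Fin (k + 1) → ℂ)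
    (hz : ∀ i, z i ^ 6 = 1) (hθ : ∀ i, IsAlgebraic ℚ (θ i))
    (h0 : w 0 = none ∨ ∃ a b, w 0 = some (a, b, []))
    (hind : ∀ x, LinearIndependent ℚ
      fun i : {i : Fin (k + 1) // w i = x} => (θ i * lead (z i) x).re) :
    ∃ D : ℝ, 1 < D ∧ ∀ C B : ℝ, 1 < B → ∃ n0 : ℕ, ∀ n : ℕ, n0 ≤ n → ∀ H : ℝ, D ^ n ≤ H →
      H ≤ C ^ n → ∀ q : Fin (k + 1) → ℤ, q ≠ 0 → (∀ i, |(q i : ℝ)| ≤ H) →
        1 / (H ^ k * B ^ n) < |∑ i, (q i : ℝ) * (θ i * value (z i) n (w i)).re| := by
  classical
  have h1 : ∀ u m, harm u m = Pool.Agent.Y760.ZG.hr u m := by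
    intro u
    induction u with
    | nil => intro m; rw [harm, Pool.Agent.Y760.ZG.hr]
    | cons a u ih =>
      intro m
      rw [harm, Pool.Agent.Y760.ZG.hr]
      exact Finset.sum_congr rfl fun j _ => by rw [ih]
  have hcl : ∀ v : List ℕ+, (v.map fun x : ℕ+ => (x : ℕ)) = Pool.Agent.Y760.ZG.cl v := by
    intro v
    induction v with
    | nil => rfl
    | cons a v ih => rw [List.map_cons, ih, Pool.Agent.Y760.ZG.cl]
  have hld : ∀ (z : ℂ) x, Pool.Agent.K1H90.SM.ld z x = lead z x := by
    intro z x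
    cases x <;> rfl
  have hzn : ∀ i, ‖z i‖ = 1 := fun i => Complex.norm_eq_one_of_pow_eq_one (hz i) (by norm_num)
  obtain ⟨D, hD, hmain⟩ := Pool.Agent.K1H90.SM.main w z θ hz hθ 0 h0 (by
    intro b hb
    funext i
    have h5 := Fintype.linearIndependent_iff.1 (hind (w i)) (fun j => b j.1) (by
      have h6 := hb (w i)
      rw [← Finset.sum_filter] at h6
      rw [← h6, Finset.sum_subtype (p := fun j => w j = w i)]
      · refine Finset.sum_congr rfl fun j _ => ?_
        rw [hld, Rat.smul_def]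
      · intro j
        rw [Finset.mem_filter]
        exact ⟨fun h => h.2, fun h => ⟨Finset.mem_univ _, h⟩⟩) ⟨i, rfl⟩
    exact h5)
  refine ⟨D, hD, fun C B hB => ?_⟩
  obtain ⟨n0, hn0⟩ := hmain C B hB
  set N : ℕ := ∑ i, ((w i).map fun x => x.2.2.length).getD 0 with hN
  refine ⟨n0 + (2 * N + 2), fun n hn H hH1 hH2 q hq hqH => ?_⟩
  have h5 := hn0 n (by omega) H hH1 hH2 q hq hqH
  rw [Fintype.card_fin, Nat.add_sub_cancel] at h5
  refine h5.trans_le (le_of_eq ?_)
  congr 1
  refine Finset.sum_congr rfl fun i _ => ?_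
  congr 1
  have hNi : ((w i).map fun x => x.2.2.length).getD 0 ≤ N :=
    Finset.single_le_sum (f := fun i => ((w i).map fun x => x.2.2.length).getD 0)
      (fun _ _ => Nat.zero_le _) (Finset.mem_univ i)
  rcases hwi : w i with _ | ⟨a, b, v⟩
  · rw [Pool.Agent.K1H90.SM.vl, value, mul_one]
  · rw [hwi] at hNi
    simp only [Option.map_some, Option.getD_some] at hNi
    have h7 : value (z i) n (some (a, b, v)) = Pool.Agent.Y760.ZF.TW.liC (z i) ((a : ℕ) * n + b)
        (Pool.Agent.Y760.ZG.cl v) := by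
      rw [value]
      unfold Pool.Agent.Y760.ZF.TW.liC
      exact tsum_congr fun m => by rw [h1, hcl]
    rw [h7, Pool.Agent.K1H90.SM.vl, Pool.Agent.K1H90.SM.th_re (hzn i)]
    have h8 : (Pool.Agent.Y760.ZG.cl v).length = v.length := by
      rw [← hcl, List.length_map]
    rw [h8]
    have h9 : 1 * n ≤ (a : ℕ) * n := Nat.mul_le_mul_right n a.pos
    omega

end Pool.Agent.K1H90.SM.Gen
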